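import Pool.Agent.PFC.StmtsB1

/-!
Squad PFC, row IDL: lifting of idempotent endomorphisms commuting with a given set.
-/

set_option autoImplicit false

namespace Pool.Agent.PFC.B1.H21

open Pool.Agent.PFC.B1

/-- the submodule of endomorphisms commuting with `S` -/
def cen {F M : Type} [Field F] [AddCommGroup M] [Module (PowerSeries F) M]
    (S : Set (Module.End (PowerSeries F) M)) :
    Submodule (PowerSeries F) (Module.End (PowerSeries F) M) where
  carrier := {g | ∀ s ∈ S, s * g = g * s}
  zero_mem' := fun s _ => by rw [mul_zero, zero_mul]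
  add_mem' := fun {a b} ha hb s hs => by rw [mul_add, add_mul, ha s hs, hb s hs]
  smul_mem' := fun r a ha s hs => by rw [mul_smul_comm, smul_mul_assoc, ha s hs]

/-- the identity behind `3 e^2 - 2 e^3` -/
theorem lift_identity {R A : Type} [CommRing R] [Ring A] [Algebra R A] (T : R) (x y : A)
    (h : x * x - x = T • y) (hxy : x * y = y * x) :
    (x + T • (y - (y * x + y * x))) * (x + T • (y - (y * x + y * x))) -
      (x + T • (y - (y * x + y * x))) =
    (T * T) • ((y - (y * x + y * x)) * (y - (y * x + y * x)) - (4 : ℕ) • (y * y)) := by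
  obtain ⟨z, hz⟩ : ∃ z, z = y - (y * x + y * x) := ⟨_, rfl⟩
  rw [← hz]
  have h1 : x * z + z * x - z = -y - (4 : ℕ) • (T • (y * y)) := by
    have e1 : y * (x * x) = y * x + T • (y * y) := by
      have : x * x = x + T • y := by rw [← h]; abel
      rw [this, mul_add, mul_smul_comm]
    have e2 : x * (y * x) = y * (x * x) := by rw [← mul_assoc, hxy, mul_assoc]
    have e3 : x * z = y * x - (y * (x * x) + y * (x * x)) := by
      rw [hz, mul_sub, mul_add, e2, hxy]
    have e4 : z * x = y * x - (y * (x * x) + y * (x * x)) := by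
      rw [hz, sub_mul, add_mul, mul_assoc]
    rw [e3, e4, hz, e1]
    abel
  have h2 : (x + T • z) * (x + T • z) - (x + T • z) =
      (x * x - x) + T • (x * z + z * x - z) + (T * T) • (z * z) := by
    rw [add_mul, mul_add, mul_add, mul_smul_comm, smul_mul_assoc, smul_mul_assoc, mul_smul_comm,
      smul_smul, smul_sub, smul_add]
    abel
  rw [h2, h, h1, smul_sub, smul_sub, smul_neg, smul_comm T (4 : ℕ), smul_smul,
    smul_comm (T * T) (4 : ℕ)]
  abel

theorem idl (hs : SucStmt) : IdlStmt := by
  intro F M _ _ _ _ _ S e hS he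
  let bs := Module.Free.chooseBasis (PowerSeries F) M
  have htf : ∀ (n : ℕ) (a b : M), (PowerSeries.X : PowerSeries F) ^ n • a =
      (PowerSeries.X : PowerSeries F) ^ n • b → a = b := by
    intro n a b hab
    apply bs.repr.injective
    ext1 i
    have h := congrArg (fun v => bs.repr v i) hab
    simp only [map_smul, Finsupp.smul_apply, smul_eq_mul] at h
    exact mul_left_cancel₀ (pow_ne_zero n PowerSeries.X_ne_zero) h
  have htf' : ∀ (n : ℕ) (a b : Module.End (PowerSeries F) M),
      (PowerSeries.X : PowerSeries F) ^ n • a =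
      (PowerSeries.X : PowerSeries F) ^ n • b → a = b := by
    intro n a b hab
    refine LinearMap.ext fun v => htf n _ _ ?_
    have := congrArg (fun f : Module.End (PowerSeries F) M => f v) hab
    simpa using this
  choose y₀ hy₀ using he
  have hy : e * e - e = (PowerSeries.X : PowerSeries F) ^ 1 •
      (bs.constr ℕ (fun i => y₀ (bs i)) : Module.End (PowerSeries F) M) := by
    apply bs.ext
    intro i
    rw [LinearMap.sub_apply, Module.End.mul_apply, hy₀, LinearMap.smul_apply, Module.Basis.constr_basis,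
      pow_one]
  obtain ⟨z, hz⟩ := hs F (cen S) (fun n g => ∃ y : Module.End (PowerSeries F) M,
      (g : Module.End (PowerSeries F) M) * g - g = (PowerSeries.X : PowerSeries F) ^ n • y)
    (by
      rintro n x z ⟨y, hy⟩
      refine ⟨y + (x.1 * z.1 + z.1 * x.1 + (PowerSeries.X : PowerSeries F) ^ n • (z.1 * z.1) - z.1),
        ?_⟩
      rw [Submodule.coe_add, Submodule.coe_smul, smul_add, ← hy, add_mul, mul_add, mul_add,
        mul_smul_comm, smul_mul_assoc, smul_mul_assoc, mul_smul_comm, smul_sub, smul_add,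
        smul_add]
      abel)
    (by
      rintro n x hn ⟨y, hy⟩
      have hxy : x.1 * y = y * x.1 := by
        apply htf' n
        rw [← mul_smul_comm, ← smul_mul_assoc, ← hy, mul_sub, sub_mul, mul_assoc]
      have hyS : y ∈ cen S := by
        intro s hsS
        apply htf' n
        have hx := x.2 s hsS
        rw [← mul_smul_comm, ← smul_mul_assoc, ← hy, mul_sub, sub_mul, hx, ← mul_assoc, hx,
          mul_assoc, hx, mul_assoc]
      have hyx : y * x.1 ∈ cen S := by
        intro s hsS
        rw [← mul_assoc, hyS s hsS, mul_assoc, x.2 s hsS, mul_assoc]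
      refine ⟨⟨y - (y * x.1 + y * x.1), (cen S).sub_mem hyS ((cen S).add_mem hyx hyx)⟩, ?_⟩
      refine ⟨(PowerSeries.X : PowerSeries F) ^ (n - 1) • ((y - (y * x.1 + y * x.1)) *
        (y - (y * x.1 + y * x.1)) - (4 : ℕ) • (y * y)), ?_⟩
      rw [smul_smul, ← pow_add, show n + 1 + (n - 1) = n + n by omega, pow_add]
      exact lift_identity _ _ _ hy hxy)
    ⟨e, hS⟩ ⟨_, hy⟩
  refine ⟨e + (PowerSeries.X : PowerSeries F) • z.1, ?_, ?_, ?_⟩
  · rw [← sub_eq_zero]
    refine LinearMap.ext fun v => ?_
    rw [LinearMap.zero_apply]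
    apply bs.repr.injective
    ext1 i
    rw [map_zero, Finsupp.zero_apply]
    ext m
    obtain ⟨y, hy⟩ := hz (m + 1) (by omega)
    have h1 : (e + (PowerSeries.X : PowerSeries F) • z.1) *
        (e + (PowerSeries.X : PowerSeries F) • z.1) - (e + (PowerSeries.X : PowerSeries F) • z.1)
        = (PowerSeries.X : PowerSeries F) ^ (m + 1) • y := by
      rw [← hy]
      rfl
    rw [h1, LinearMap.smul_apply, map_smul, Finsupp.smul_apply, smul_eq_mul, map_zero]
    exact (PowerSeries.X_pow_dvd_iff.1 (dvd_mul_right _ _)) m (by omega)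
  · intro s hsS
    rw [mul_add, add_mul, hS s hsS, mul_smul_comm, smul_mul_assoc, z.2 s hsS]
  · intro x
    refine ⟨z.1 x, ?_⟩
    rw [LinearMap.add_apply, LinearMap.smul_apply]
    abel

end Pool.Agent.PFC.B1.H21
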